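import Mathlib

set_option autoImplicit false

/-!
# Bergum's problem: quadratic families of admissible integers of both signs
-/

namespace Pool.Agent.Results.MP_25c7c3_nt.QuadraticFamilies

/-- `n` is admissible: there are positive coprime integers `x`, `y` with `x` even such that
`x ^ 2 + y ^ 2` and `x ^ 2 + (y - n * x) ^ 2` are squares. -/
def Admissible (n : ℤ) : Prop :=
  ∃ x y : ℤ, 0 < x ∧ 0 < y ∧ IsCoprime x y ∧ Even x ∧
    (∃ b : ℤ, x ^ 2 + y ^ 2 = b ^ 2) ∧ (∃ c : ℤ, x ^ 2 + (y - n * x) ^ 2 = c ^ 2)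

lemma coprime_triple {p q : ℤ} (h : IsCoprime p q) (hp : Odd (p + q)) :
    IsCoprime (2 * (p * q)) (p ^ 2 - q ^ 2) := by
  have h1 : IsCoprime p (p ^ 2 - q ^ 2) := by
    have h2 : IsCoprime p (-(q ^ 2)) := (h.pow_right).neg_right
    have e : p ^ 2 - q ^ 2 = -(q ^ 2) + p * p := by ring
    rw [e]
    exact h2.add_mul_left_right p
  have h3 : IsCoprime q (p ^ 2 - q ^ 2) := by
    have h4 : IsCoprime q (p ^ 2) := h.symm.pow_right
    have e : p ^ 2 - q ^ 2 = p ^ 2 + q * (-q) := by ring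
    rw [e]
    exact h4.add_mul_left_right (-q)
  have h5 : IsCoprime (2 : ℤ) (p ^ 2 - q ^ 2) := by
    obtain ⟨k, hk⟩ := hp
    have hodd : Odd (p ^ 2 - q ^ 2) := by
      have e : p ^ 2 - q ^ 2 = (p + q) * (p - q) := by ring
      rw [e]
      have h6 : Odd (p - q) := ⟨k - q, by linarith⟩
      exact Odd.mul ⟨k, hk⟩ h6
    obtain ⟨m, hm⟩ := hodd
    exact ⟨-m, 1, by rw [hm]; ring⟩
  exact h5.mul_left (h1.mul_left h3)

/-- the parametrisation: positive sign -/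
lemma adm_pos {a b g d n : ℤ} (ha : 0 < a) (hb : 0 < b) (hg : 0 < g) (hd : 0 < d)
    (h : (a ^ 2 + d ^ 2) * (b ^ 2 - g ^ 2) = 2 * n * (a * b * g * d))
    (hco : IsCoprime (a * b) (g * d)) (hpar : Odd (a * b + g * d)) (hlt : g * d < a * b) :
    Admissible n := by
  refine ⟨2 * ((a * b) * (g * d)), (a * b) ^ 2 - (g * d) ^ 2, by positivity, ?_,
    coprime_triple hco hpar, even_two_mul _, ⟨(a * b) ^ 2 + (g * d) ^ 2, by ring⟩,
    ⟨(a * g) ^ 2 + (b * d) ^ 2, ?_⟩⟩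
  · have h1 : 0 < g * d := by positivity
    nlinarith
  · have e : (a * b) ^ 2 - (g * d) ^ 2 - n * (2 * ((a * b) * (g * d))) =
        (a * g) ^ 2 - (b * d) ^ 2 := by linear_combination (-1 : ℤ) * (-h)
    rw [e]
    ring

/-- the parametrisation: negative sign -/
lemma adm_neg {a b g d n : ℤ} (ha : 0 < a) (hb : 0 < b) (hg : 0 < g) (hd : 0 < d)
    (h : (a ^ 2 + d ^ 2) * (b ^ 2 - g ^ 2) = 2 * n * (a * b * g * d))
    (hco : IsCoprime (a * g) (b * d)) (hpar : Odd (a * g + b * d)) (hlt : b * d < a * g) :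
    Admissible (-n) := by
  have h' : (a ^ 2 + d ^ 2) * (g ^ 2 - b ^ 2) = 2 * (-n) * (a * g * b * d) := by
    linear_combination (-1 : ℤ) * h
  exact adm_pos ha hg hb hd h' hco hpar hlt

lemma family_odd {w : ℤ} (hw : 3 ≤ w) (hodd : Odd w) :
    Admissible (w ^ 2 + 4) ∧ Admissible (-(w ^ 2 + 4)) := by
  obtain ⟨j, hj⟩ := hodd
  have c2w : IsCoprime (2 : ℤ) w := ⟨-j, 1, by rw [hj]; ring⟩
  have cw2 : IsCoprime w (2 : ℤ) := c2w.symm
  -- w ^ 2 + 2 coprime to w and to 2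
  have c1 : IsCoprime (w ^ 2 + 2) w := by
    have e : w ^ 2 + 2 = 2 + w * w := by ring
    rw [e]
    exact c2w.add_mul_left_left w
  have c1' : IsCoprime (w ^ 2 + 2) 2 := by
    have e : w ^ 2 + 2 = w ^ 2 + 2 * 1 := by ring
    rw [e]
    exact (cw2.pow_left (m := 2)).add_mul_left_left 1
  have cb : IsCoprime (w ^ 2 + 2 * w + 2) w := by
    have e : w ^ 2 + 2 * w + 2 = 2 + w * (w + 2) := by ring
    rw [e]
    exact c2w.add_mul_left_left (w + 2)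
  have cb2 : IsCoprime (w ^ 2 + 2 * w + 2) 2 := by
    have e : w ^ 2 + 2 * w + 2 = w ^ 2 + 2 * (w + 1) := by ring
    rw [e]
    exact (cw2.pow_left (m := 2)).add_mul_left_left (w + 1)
  have cg : IsCoprime (w ^ 2 - 2 * w + 2) w := by
    have e : w ^ 2 - 2 * w + 2 = 2 + w * (w - 2) := by ring
    rw [e]
    exact c2w.add_mul_left_left (w - 2)
  have cg2 : IsCoprime (w ^ 2 - 2 * w + 2) 2 := by
    have e : w ^ 2 - 2 * w + 2 = w ^ 2 + 2 * (1 - w) := by ring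
    rw [e]
    exact (cw2.pow_left (m := 2)).add_mul_left_left (1 - w)
  have cb' : IsCoprime (w ^ 2 + 2) (w ^ 2 + 2 * w + 2) := by
    have e : w ^ 2 + 2 * w + 2 = 2 * w + (w ^ 2 + 2) * 1 := by ring
    rw [e]
    exact (c1'.mul_right c1).add_mul_left_right 1
  have cg' : IsCoprime (w ^ 2 + 2) (w ^ 2 - 2 * w + 2) := by
    have e : w ^ 2 - 2 * w + 2 = -(2 * w) + (w ^ 2 + 2) * 1 := by ring
    rw [e]
    exact ((c1'.mul_right c1).neg_right).add_mul_left_right 1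
  have cbg : IsCoprime (w ^ 2 + 2 * w + 2) (w ^ 2 - 2 * w + 2) := by
    have e : w ^ 2 - 2 * w + 2 = -(2 * (2 * w)) + (w ^ 2 + 2 * w + 2) * 1 := by ring
    rw [e]
    exact ((cb2.mul_right (cb2.mul_right cb)).neg_right).add_mul_left_right 1
  have ca2 : IsCoprime (w * (w ^ 2 + 2)) 2 := cw2.mul_left c1'
  have cab : IsCoprime (w * (w ^ 2 + 2)) (w ^ 2 + 2 * w + 2) := (cb.symm).mul_left cb'
  have cag : IsCoprime (w * (w ^ 2 + 2)) (w ^ 2 - 2 * w + 2) := (cg.symm).mul_left cg'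
  have four : (4 : ℤ) = 2 * 2 := by norm_num
  have ca4 : IsCoprime (w * (w ^ 2 + 2)) 4 := by rw [four]; exact ca2.mul_right ca2
  have cb4 : IsCoprime (w ^ 2 + 2 * w + 2) 4 := by rw [four]; exact cb2.mul_right cb2
  have cg4 : IsCoprime (w ^ 2 - 2 * w + 2) 4 := by rw [four]; exact cg2.mul_right cg2
  have hwodd : Odd w := ⟨j, hj⟩
  have hb_odd : Odd (w ^ 2 + 2 * w + 2) := by
    refine ⟨2 * j ^ 2 + 4 * j + 2, ?_⟩
    rw [hj]
    ring
  have hg_odd : Odd (w ^ 2 - 2 * w + 2) := by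
    refine ⟨2 * j ^ 2, ?_⟩
    rw [hj]
    ring
  have ha_odd : Odd (w * (w ^ 2 + 2)) := by
    apply hwodd.mul
    refine ⟨2 * j ^ 2 + 2 * j + 1, ?_⟩
    rw [hj]
    ring
  have hapos : 0 < w * (w ^ 2 + 2) := by positivity
  have hbpos : 0 < w ^ 2 + 2 * w + 2 := by positivity
  have hgpos : 0 < w ^ 2 - 2 * w + 2 := by nlinarith
  have key : ((w * (w ^ 2 + 2)) ^ 2 + 4 ^ 2) * ((w ^ 2 + 2 * w + 2) ^ 2 - (w ^ 2 - 2 * w + 2) ^ 2) =
      2 * (w ^ 2 + 4) *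
        ((w * (w ^ 2 + 2)) * (w ^ 2 + 2 * w + 2) * (w ^ 2 - 2 * w + 2) * 4) := by ring
  have even4 : ∀ z : ℤ, Even (z * 4) := fun z => ⟨z * 2, by ring⟩
  constructor
  · refine adm_pos hapos hbpos hgpos (by norm_num) key ?_ ?_ ?_
    · exact (cag.mul_left cbg).mul_right (ca4.mul_left cb4)
    · exact (ha_odd.mul hb_odd).add_even (even4 _)
    · nlinarith [mul_pos hapos hbpos, mul_pos hbpos hgpos]
  · refine adm_neg hapos hbpos hgpos (by norm_num) key ?_ ?_ ?_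
    · exact (cab.mul_left cbg.symm).mul_right (ca4.mul_left cg4)
    · exact (ha_odd.mul hg_odd).add_even (even4 _)
    · obtain ⟨v, rfl⟩ : ∃ v, w = v + 3 := ⟨w - 3, by ring⟩
      have hv : 0 ≤ v := by linarith
      nlinarith [pow_nonneg hv 2, pow_nonneg hv 3, pow_nonneg hv 4, pow_nonneg hv 5]

lemma family_two {m : ℤ} (hm : 1 ≤ m) : Admissible (2 * (m ^ 2 + m + 1)) := by
  have hb : 0 < 2 * m ^ 2 + 2 * m + 1 := by positivity
  have c1 : IsCoprime (m + 1) m := ⟨1, -1, by ring⟩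
  have c2 : IsCoprime (2 * m ^ 2 + 2 * m + 1) m := ⟨1, -(2 * m + 2), by ring⟩
  refine adm_pos (a := m + 1) (b := 2 * m ^ 2 + 2 * m + 1) (g := 1) (d := m) (by linarith) hb
    (by norm_num) (by linarith) (by ring) ?_ ?_ ?_
  · rw [one_mul]
    exact c1.mul_left c2
  · refine ⟨m ^ 3 + 2 * m ^ 2 + 2 * m, ?_⟩
    ring
  · nlinarith [pow_nonneg (by linarith : (0 : ℤ) ≤ m) 2, pow_nonneg (by linarith : (0 : ℤ) ≤ m) 3]

lemma family_four {v : ℤ} (hv : 2 ≤ v) (heven : Even v) :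
    Admissible (4 * v ^ 2 + 4) ∧ Admissible (-(4 * v ^ 2 + 4)) := by
  obtain ⟨j, hj⟩ := heven
  have c1 : IsCoprime (2 * v ^ 2 + 1) v := ⟨1, -(2 * v), by ring⟩
  have c1' : IsCoprime (2 * v ^ 2 + 1) 2 := ⟨1, -(v ^ 2), by ring⟩
  have cb : IsCoprime (2 * v ^ 2 + 2 * v + 1) v := ⟨1, -(2 * v + 2), by ring⟩
  have cb2 : IsCoprime (2 * v ^ 2 + 2 * v + 1) 2 := ⟨1, -(v ^ 2 + v), by ring⟩
  have cg : IsCoprime (2 * v ^ 2 - 2 * v + 1) v := ⟨1, -(2 * v - 2), by ring⟩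
  have cb' : IsCoprime (2 * v ^ 2 + 1) (2 * v ^ 2 + 2 * v + 1) := by
    have e : 2 * v ^ 2 + 2 * v + 1 = 2 * v + (2 * v ^ 2 + 1) * 1 := by ring
    rw [e]
    exact (c1'.mul_right c1).add_mul_left_right 1
  have cg' : IsCoprime (2 * v ^ 2 + 1) (2 * v ^ 2 - 2 * v + 1) := by
    have e : 2 * v ^ 2 - 2 * v + 1 = -(2 * v) + (2 * v ^ 2 + 1) * 1 := by ring
    rw [e]
    exact ((c1'.mul_right c1).neg_right).add_mul_left_right 1
  have cbg : IsCoprime (2 * v ^ 2 + 2 * v + 1) (2 * v ^ 2 - 2 * v + 1) := by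
    have e : 2 * v ^ 2 - 2 * v + 1 = -(2 * (2 * v)) + (2 * v ^ 2 + 2 * v + 1) * 1 := by ring
    rw [e]
    exact ((cb2.mul_right (cb2.mul_right cb)).neg_right).add_mul_left_right 1
  have cab : IsCoprime (v * (2 * v ^ 2 + 1)) (2 * v ^ 2 + 2 * v + 1) := (cb.symm).mul_left cb'
  have cag : IsCoprime (v * (2 * v ^ 2 + 1)) (2 * v ^ 2 - 2 * v + 1) := (cg.symm).mul_left cg'
  have hapos : 0 < v * (2 * v ^ 2 + 1) := by positivity
  have hbpos : 0 < 2 * v ^ 2 + 2 * v + 1 := by positivity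
  have hgpos : 0 < 2 * v ^ 2 - 2 * v + 1 := by nlinarith
  have haeven : Even (v * (2 * v ^ 2 + 1)) := ⟨j * (2 * v ^ 2 + 1), by rw [hj]; ring⟩
  have hbodd : Odd (2 * v ^ 2 + 2 * v + 1) := ⟨v ^ 2 + v, by ring⟩
  have hgodd : Odd (2 * v ^ 2 - 2 * v + 1) := ⟨v ^ 2 - v, by ring⟩
  have key : ((v * (2 * v ^ 2 + 1)) ^ 2 + 1 ^ 2) *
      ((2 * v ^ 2 + 2 * v + 1) ^ 2 - (2 * v ^ 2 - 2 * v + 1) ^ 2) =
      2 * (4 * v ^ 2 + 4) *
        ((v * (2 * v ^ 2 + 1)) * (2 * v ^ 2 + 2 * v + 1) * (2 * v ^ 2 - 2 * v + 1) * 1) := by ring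
  obtain ⟨z, hz⟩ : ∃ z, v = z + 2 := ⟨v - 2, by ring⟩
  have hz0 : 0 ≤ z := by linarith
  constructor
  · refine adm_pos hapos hbpos hgpos (by norm_num) key ?_ ?_ ?_
    · rw [mul_one]
      exact cag.mul_left cbg
    · rw [mul_one]
      exact (haeven.mul_right _).add_odd hgodd
    · rw [hz]
      nlinarith [pow_nonneg hz0 2, pow_nonneg hz0 3, pow_nonneg hz0 4, pow_nonneg hz0 5]
  · refine adm_neg hapos hbpos hgpos (by norm_num) key ?_ ?_ ?_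
    · rw [mul_one]
      exact cab.mul_left cbg.symm
    · rw [mul_one]
      exact (haeven.mul_right _).add_odd hbodd
    · rw [hz]
      nlinarith [pow_nonneg hz0 2, pow_nonneg hz0 3, pow_nonneg hz0 4, pow_nonneg hz0 5]

theorem result : ∀ n : ℤ,
    ((∃ w : ℤ, 3 ≤ w ∧ (Odd w ∨ 4 ∣ w) ∧ (n = w ^ 2 + 4 ∨ n = -(w ^ 2 + 4))) ∨
      (∃ m : ℤ, 1 ≤ m ∧ n = 2 * (m ^ 2 + m + 1))) → Admissible n := by
  rintro n (⟨w, hw, hodd | ⟨u, rfl⟩, hn⟩ | ⟨m, hm, rfl⟩)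
  · obtain ⟨h1, h2⟩ := family_odd hw hodd
    rcases hn with rfl | rfl
    · exact h1
    · exact h2
  · obtain ⟨h1, h2⟩ := family_four (v := 2 * u) (by omega) (even_two_mul u)
    have e : (4 * u) ^ 2 + 4 = 4 * (2 * u) ^ 2 + 4 := by ring
    rcases hn with rfl | rfl
    · rw [e]
      exact h1
    · rw [e]
      exact h2
  · exact family_two hm

end Pool.Agent.Results.MP_25c7c3_nt.QuadraticFamilies
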